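import Mathlib
import Pool.Agent.Q106.Config

set_option autoImplicit false

namespace Pool.Agent.Results.MP_a24849_co.UnboundedExcess

/-- `D` is a dominating set of `G`. -/
def IsDominating {V : Type*} (G : SimpleGraph V) (D : Finset V) : Prop :=
  ∀ v, v ∉ D → ∃ u ∈ D, G.Adj v u

/-- `D` is an accurate dominating set of `G`: it is dominating and the complement of `D` contains
no dominating set with exactly `|D|` elements. -/
def IsAccurate {V : Type*} (G : SimpleGraph V) (D : Finset V) : Prop :=
  IsDominating G D ∧ ¬ ∃ D' : Finset V, Disjoint D' D ∧ IsDominating G D' ∧ D'.card = D.card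

/-- The accurate domination number. -/
noncomputable def gammaA {V : Type*} (G : SimpleGraph V) : ℕ :=
  sInf {k | ∃ D : Finset V, IsAccurate G D ∧ D.card = k}

/-- `P` assigns to every vertex `v` (the set of blocks of) a partition of the neighbourhood of `v`
into nonempty blocks. -/
def IsNbrPartition {V : Type*} (G : SimpleGraph V) (P : V → Finset (Finset V)) : Prop :=
  ∀ v, (∀ A ∈ P v, A.Nonempty) ∧ (∀ A ∈ P v, ∀ B ∈ P v, A ≠ B → Disjoint A B) ∧
    ∀ w, G.Adj v w ↔ ∃ A ∈ P v, w ∈ A

/-- The `P`-corona `G ∘ P`: `inl v` is the vertex `(v, 1)` and `inr ⟨v, A⟩` is the vertex `(v, A)`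
for a block `A` of `P v`. The vertex `(v, 1)` is adjacent to all `(v, A)`, and for every edge `uv`
of `G` the vertex `(v, A)` is adjacent to `(u, B)` when `u ∈ A` and `v ∈ B`. -/
def corona {V : Type*} (G : SimpleGraph V) (P : V → Finset (Finset V)) :
    SimpleGraph (V ⊕ Σ v : V, {A : Finset V // A ∈ P v}) where
  Adj
    | .inl u, .inr ⟨v, _⟩ => u = v
    | .inr ⟨v, _⟩, .inl u => u = v
    | .inr ⟨v, A⟩, .inr ⟨u, B⟩ => G.Adj v u ∧ u ∈ A.1 ∧ v ∈ B.1
    | .inl _, .inl _ => False
  symm := ⟨by
    rintro (u | ⟨u, A⟩) (v | ⟨v, B⟩) h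
    · exact h
    · exact h
    · exact h
    · exact ⟨h.1.symm, h.2.2, h.2.1⟩⟩
  loopless := ⟨by
    rintro (u | ⟨u, A⟩) h
    · exact h
    · exact G.irrefl h.1⟩

/-- The Hamming graph: words of length `p` over `Fin p`, adjacent iff they differ in exactly one
coordinate. -/
def hamming (p : ℕ) : SimpleGraph (Fin p → Fin p) where
  Adj x y := ∃ i, x i ≠ y i ∧ ∀ j, j ≠ i → x j = y j
  symm := ⟨fun _ _ ⟨i, h, h'⟩ => ⟨i, h.symm, fun j hj => (h' j hj).symm⟩⟩
  loopless := ⟨fun _ ⟨_, h, _⟩ => h rfl⟩

/-- The neighbours of `x` in direction `i`. -/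
def nb {p : ℕ} (x : Fin p → Fin p) (i : Fin p) : Finset (Fin p → Fin p) :=
  Finset.univ.filter fun y => x i ≠ y i ∧ ∀ j, j ≠ i → x j = y j

/-- The partition of the neighbourhood of `x` by direction. -/
def parts {p : ℕ} (x : Fin p → Fin p) : Finset (Finset (Fin p → Fin p)) :=
  Finset.univ.image (nb x)

theorem mem_nb {p : ℕ} (x y : Fin p → Fin p) (i : Fin p) :
    y ∈ nb x i ↔ x i ≠ y i ∧ ∀ j, j ≠ i → x j = y j := by simp [nb]

theorem nb_unique {p : ℕ} {x y : Fin p → Fin p} {i j : Fin p} (hi : y ∈ nb x i)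
    (hj : y ∈ nb x j) : i = j := by
  rw [mem_nb] at hi hj
  by_contra hne
  exact hi.1 (hj.2 i hne)

theorem nb_nonempty {p : ℕ} (hp : 2 ≤ p) (x : Fin p → Fin p) (i : Fin p) : (nb x i).Nonempty := by
  obtain ⟨a, ha⟩ : ∃ a : Fin p, a ≠ x i := by
    by_cases h : x i = ⟨0, by omega⟩
    · exact ⟨⟨1, by omega⟩, by rw [h]; simp⟩
    · exact ⟨_, fun h' => h h'.symm⟩
  refine ⟨Function.update x i a, ?_⟩
  rw [mem_nb]
  exact ⟨by simpa using ha.symm, fun j hj => by rw [Function.update_of_ne hj]⟩

theorem nb_inj {p : ℕ} (hp : 2 ≤ p) (x : Fin p → Fin p) : Function.Injective (nb x) := by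
  intro i j h
  obtain ⟨y, hy⟩ := nb_nonempty hp x i
  exact nb_unique hy (h ▸ hy)

theorem isNbrPartition {p : ℕ} (hp : 2 ≤ p) : IsNbrPartition (hamming p) parts := by
  intro x
  refine ⟨?_, ?_, ?_⟩
  · intro A hA
    obtain ⟨i, _, rfl⟩ := Finset.mem_image.mp hA
    exact nb_nonempty hp x i
  · intro A hA B hB hAB
    obtain ⟨i, _, rfl⟩ := Finset.mem_image.mp hA
    obtain ⟨j, _, rfl⟩ := Finset.mem_image.mp hB
    rw [Finset.disjoint_left]
    intro y hy hy'
    exact hAB (by rw [nb_unique hy hy'])
  · intro w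
    constructor
    · rintro ⟨i, h⟩
      exact ⟨nb x i, Finset.mem_image_of_mem _ (Finset.mem_univ _), (mem_nb x w i).mpr h⟩
    · rintro ⟨A, hA, hw⟩
      obtain ⟨i, _, rfl⟩ := Finset.mem_image.mp hA
      exact ⟨i, (mem_nb x w i).mp hw⟩

/-- The lines of the configuration. -/
abbrev Line (p : ℕ) [NeZero p] := {l : Fin p × (Fin p → Fin p) // l.2 l.1 = 0}

/-- Incidence of points and lines. -/
def inc {p : ℕ} [NeZero p] (x : Fin p → Fin p) (l : Line p) : Prop :=
  l.1.2 = Function.update x l.1.1 0

instance {p : ℕ} [NeZero p] (x : Fin p → Fin p) (l : Line p) : Decidable (inc x l) := by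
  unfold inc; infer_instance

/-- The line through `x` in direction `i`. -/
def lineOf {p : ℕ} [NeZero p] (x : Fin p → Fin p) (i : Fin p) : Line p :=
  ⟨(i, Function.update x i 0), by simp⟩

theorem inc_lineOf {p : ℕ} [NeZero p] (x : Fin p → Fin p) (i : Fin p) : inc x (lineOf x i) := rfl

theorem eq_lineOf {p : ℕ} [NeZero p] {x : Fin p → Fin p} {l : Line p} (h : inc x l) :
    l = lineOf x l.1.1 := by
  apply Subtype.ext
  exact Prod.ext rfl h

theorem card_lines {p : ℕ} [NeZero p] (x : Fin p → Fin p) :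
    (Finset.univ.filter fun l : Line p => inc x l).card = p := by
  have : (Finset.univ.filter fun l : Line p => inc x l) = Finset.univ.image (lineOf x) := by
    ext l
    simp only [Finset.mem_filter, Finset.mem_univ, true_and, Finset.mem_image]
    constructor
    · intro h; exact ⟨l.1.1, (eq_lineOf h).symm⟩
    · rintro ⟨i, rfl⟩; exact inc_lineOf x i
  rw [this, Finset.card_image_of_injective, Finset.card_univ, Fintype.card_fin]
  intro i j h
  exact congrArg (fun l : Line p => l.1.1) h

theorem card_points {p : ℕ} [NeZero p] (l : Line p) :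
    (Finset.univ.filter fun x : Fin p → Fin p => inc x l).card = p := by
  have : (Finset.univ.filter fun x : Fin p → Fin p => inc x l) =
      Finset.univ.image (fun a => Function.update l.1.2 l.1.1 a) := by
    ext x
    simp only [Finset.mem_filter, Finset.mem_univ, true_and, Finset.mem_image]
    constructor
    · intro h
      refine ⟨x l.1.1, ?_⟩
      rw [h]
      simp
    · rintro ⟨a, rfl⟩
      change l.1.2 = Function.update (Function.update l.1.2 l.1.1 a) l.1.1 0
      rw [Function.update_idem]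
      have h := Function.update_eq_self l.1.1 l.1.2
      rw [l.2] at h
      exact h.symm
  rw [this, Finset.card_image_of_injective, Finset.card_univ, Fintype.card_fin]
  intro a b h
  have := congrFun h l.1.1
  simpa using this

/-- The vertex of the corona belonging to the point `x` and the direction `i`. -/
def flag {p : ℕ} (x : Fin p → Fin p) (i : Fin p) :
    (Fin p → Fin p) ⊕ Σ v : Fin p → Fin p, {A : Finset (Fin p → Fin p) // A ∈ parts v} :=
  .inr ⟨x, ⟨nb x i, Finset.mem_image_of_mem _ (Finset.mem_univ _)⟩⟩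

theorem flag_inj {p : ℕ} (hp : 2 ≤ p) {x y : Fin p → Fin p} {i j : Fin p}
    (h : flag x i = flag y j) : x = y ∧ i = j := by
  have h1 := Sum.inr_injective h
  have hxy : x = y := congrArg Sigma.fst h1
  subst hxy
  have h2 := eq_of_heq (Sigma.mk.inj h1).2
  exact ⟨rfl, nb_inj hp x (congrArg Subtype.val h2)⟩

theorem exists_flag {p : ℕ} (v : Fin p → Fin p) (A : {A : Finset (Fin p → Fin p) // A ∈ parts v}) :
    ∃ i, (.inr ⟨v, A⟩ : (Fin p → Fin p) ⊕
      Σ v : Fin p → Fin p, {A : Finset (Fin p → Fin p) // A ∈ parts v}) = flag v i := by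
  obtain ⟨A, hA⟩ := A
  obtain ⟨i, _, rfl⟩ := Finset.mem_image.mp hA
  exact ⟨i, rfl⟩

theorem hub_adj {p : ℕ} (x y : Fin p → Fin p) (i : Fin p) :
    (corona (hamming p) parts).Adj (.inl x) (flag y i) ↔ x = y := Iff.rfl

theorem flag_adj {p : ℕ} (x y : Fin p → Fin p) (i j : Fin p) :
    (corona (hamming p) parts).Adj (flag x i) (flag y j) ↔ y ∈ nb x i ∧ i = j := by
  change ((hamming p).Adj x y ∧ y ∈ nb x i ∧ x ∈ nb y j) ↔ _
  constructor
  · rintro ⟨_, h1, h2⟩
    refine ⟨h1, ?_⟩
    rw [mem_nb] at h1 h2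
    by_contra hne
    exact h2.1 (h1.2 j (Ne.symm hne)).symm
  · rintro ⟨h, rfl⟩
    rw [mem_nb] at h
    exact ⟨⟨i, h⟩, (mem_nb x y i).mpr h, (mem_nb y x i).mpr
      ⟨h.1.symm, fun j hj => (h.2 j hj).symm⟩⟩

/-- Every dominating set `D` with at most `|V| + k` elements is not accurate. -/
theorem not_accurate {p k : ℕ} [NeZero p] (hp : k + 2 ≤ p)
    (D : Finset ((Fin p → Fin p) ⊕
      Σ v : Fin p → Fin p, {A : Finset (Fin p → Fin p) // A ∈ parts v}))
    (hD : IsDominating (corona (hamming p) parts) D)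
    (hcard : D.card ≤ Fintype.card (Fin p → Fin p) + k) :
    ∃ D', Disjoint D' D ∧ IsDominating (corona (hamming p) parts) D' ∧ D'.card = D.card := by
  classical
  let H : Finset (Fin p → Fin p) := Finset.univ.filter fun x => .inl x ∈ D
  let F : Finset ((Fin p → Fin p) × Line p) :=
    Finset.univ.filter fun q => inc q.1 q.2 ∧ flag q.1 q.2.1.1 ∈ D
  have memF : ∀ x i, flag x i ∈ D → (x, lineOf x i) ∈ F := by
    intro x i h
    simp only [F, Finset.mem_filter, Finset.mem_univ, true_and]
    exact ⟨inc_lineOf x i, h⟩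
  have h1 : ∀ x, x ∉ H → ∃ l, (x, l) ∈ F := by
    intro x hx
    have hx' : .inl x ∉ D := by simpa [H] using hx
    obtain ⟨u, hu, hadj⟩ := hD _ hx'
    rcases u with u | ⟨v, A⟩
    · exact absurd hadj (by simp [corona])
    · obtain ⟨i, hi⟩ := exists_flag v A
      rw [hi] at hu hadj
      rw [hub_adj] at hadj
      subst hadj
      exact ⟨_, memF x i hu⟩
  have h2 : ∀ x, x ∉ H → ∀ l : Line p, inc x l → ∃ y, (y, l) ∈ F := by
    intro x hx l hl
    have hx' : .inl x ∉ D := by simpa [H] using hx
    rw [eq_lineOf hl]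
    set i := l.1.1
    by_cases hf : flag x i ∈ D
    · exact ⟨x, memF x i hf⟩
    · obtain ⟨u, hu, hadj⟩ := hD _ hf
      rcases u with u | ⟨v, A⟩
      · have : u = x := hadj
        rw [this] at hu
        exact absurd hu hx'
      · obtain ⟨j, hj⟩ := exists_flag v A
        rw [hj] at hu hadj
        rw [flag_adj] at hadj
        obtain ⟨hv, rfl⟩ := hadj
        refine ⟨v, ?_⟩
        have : lineOf x i = lineOf v i := by
          apply Subtype.ext
          refine Prod.ext rfl ?_
          change Function.update x i 0 = Function.update v i 0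
          rw [mem_nb] at hv
          funext j
          by_cases hj : j = i
          · subst hj; simp
          · rw [Function.update_of_ne hj, Function.update_of_ne hj, hv.2 j hj]
        rw [this]
        exact memF v i hu
  have h3 : H.card + F.card ≤ D.card := by
    have e1 : (H.image Sum.inl ∪ F.image fun q => flag q.1 q.2.1.1) ⊆ D := by
      intro z hz
      rcases Finset.mem_union.mp hz with hz | hz
      · obtain ⟨x, hx, rfl⟩ := Finset.mem_image.mp hz
        simpa [H] using hx
      · obtain ⟨q, hq, rfl⟩ := Finset.mem_image.mp hz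
        exact (Finset.mem_filter.mp hq).2.2
    have e2 := Finset.card_le_card e1
    rw [Finset.card_union_of_disjoint, Finset.card_image_of_injective _ Sum.inl_injective,
      Finset.card_image_of_injOn] at e2
    · exact e2
    · intro q hq r hr hqr
      have hq' := (Finset.mem_filter.mp (Finset.mem_coe.mp hq)).2.1
      have hr' := (Finset.mem_filter.mp (Finset.mem_coe.mp hr)).2.1
      obtain ⟨a, b⟩ := flag_inj (by omega) hqr
      refine Prod.ext a ?_
      rw [eq_lineOf hq', eq_lineOf hr', a, b]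
    · rw [Finset.disjoint_left]
      intro z hz hz'
      obtain ⟨x, _, rfl⟩ := Finset.mem_image.mp hz
      obtain ⟨q, _, hq⟩ := Finset.mem_image.mp hz'
      cases hq
  obtain ⟨f, hf, hfx⟩ := Q106.Config.hall_aux (inc (p := p)) p k hp card_lines card_points H F
    (fun q hq => (Finset.mem_filter.mp hq).2.1) h1 h2 (h3.trans hcard)
  -- the new dominating set
  let C := Finset.univ.image fun x : Fin p → Fin p => flag x (f x).1.1
  have hC : IsDominating (corona (hamming p) parts) C := by
    rintro (x | ⟨x, A⟩) hz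
    · exact ⟨flag x (f x).1.1, Finset.mem_image_of_mem _ (Finset.mem_univ _),
        (hub_adj _ _ _).mpr rfl⟩
    · obtain ⟨i, hi⟩ := exists_flag x A
      rw [hi] at hz ⊢
      obtain ⟨y, hy⟩ := hf.2 (lineOf x i)
      have hyi : (f y).1.1 = i := by rw [hy]; rfl
      have hyC : flag y i ∈ C := by
        rw [← hyi]
        exact Finset.mem_image_of_mem _ (Finset.mem_univ _)
      refine ⟨flag y i, hyC, (flag_adj _ _ _ _).mpr ⟨?_, rfl⟩⟩
      have hyx : y ≠ x := by
        rintro rfl
        exact hz hyC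
      have hinc : inc y (lineOf x i) := hy ▸ (hfx y).1
      have hupd : Function.update x i 0 = Function.update y i 0 := hinc
      have hoff : ∀ j, j ≠ i → x j = y j := by
        intro j hj
        have := congrFun hupd j
        rwa [Function.update_of_ne hj, Function.update_of_ne hj] at this
      rw [mem_nb]
      refine ⟨fun h => hyx ?_, hoff⟩
      funext j
      by_cases hj : j = i
      · rw [hj]; exact h.symm
      · exact (hoff j hj).symm
  have hCD : Disjoint C D := by
    rw [Finset.disjoint_left]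
    intro z hz hzD
    obtain ⟨x, _, rfl⟩ := Finset.mem_image.mp hz
    apply (hfx x).2
    rw [Finset.mem_filter]
    exact ⟨Finset.mem_univ _, (hfx x).1, hzD⟩
  have hCcard : C.card = Fintype.card (Fin p → Fin p) := by
    rw [Finset.card_image_of_injective, Finset.card_univ]
    intro a b hab
    exact (flag_inj (by omega) hab).1
  -- sizes
  have hVD : Fintype.card (Fin p → Fin p) ≤ D.card := by
    refine le_trans ?_ h3
    have e1 : (Finset.univ \ H).card ≤ F.card := by
      have : (Finset.univ \ H) ⊆ F.image Prod.fst := by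
        intro x hx
        obtain ⟨l, hl⟩ := h1 x (by simpa using hx)
        exact Finset.mem_image.mpr ⟨(x, l), hl, rfl⟩
      exact (Finset.card_le_card this).trans Finset.card_image_le
    have e2 := Finset.card_sdiff_add_card_eq_card (Finset.subset_univ H)
    rw [Finset.card_univ] at e2
    omega
  have htotal : Fintype.card (Fin p → Fin p) * (p + 1) ≤ (Finset.univ : Finset
      ((Fin p → Fin p) ⊕ Σ v : Fin p → Fin p, {A : Finset (Fin p → Fin p) // A ∈ parts v})).card := by
    rw [Finset.card_univ, Fintype.card_sum, Fintype.card_sigma]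
    have : ∀ v : Fin p → Fin p, Fintype.card {A : Finset (Fin p → Fin p) // A ∈ parts v} = p := by
      intro v
      rw [Fintype.card_coe, parts, Finset.card_image_of_injective _ (nb_inj (by omega) v),
        Finset.card_univ, Fintype.card_fin]
    simp only [this, Finset.sum_const, Finset.card_univ, smul_eq_mul]
    exact le_of_eq (by ring)
  have hV2 : 2 ≤ Fintype.card (Fin p → Fin p) := by
    rw [Fintype.card_fun, Fintype.card_fin]
    calc 2 ≤ p := by omega
      _ = p ^ 1 := (pow_one p).symm
      _ ≤ p ^ p := Nat.pow_le_pow_right (by omega) (by omega)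
  have hbig : D.card ≤ Dᶜ.card := by
    rw [Finset.card_compl, ← Finset.card_univ]
    have : 2 * (Fintype.card (Fin p → Fin p) + k) ≤ Fintype.card (Fin p → Fin p) * (p + 1) := by
      have : Fintype.card (Fin p → Fin p) * (k + 3) ≤ Fintype.card (Fin p → Fin p) * (p + 1) :=
        Nat.mul_le_mul_left _ (by omega)
      nlinarith
    omega
  obtain ⟨D', hCD', hD'D, hD'card⟩ := Finset.exists_subsuperset_card_eq
    (Finset.subset_compl_iff_disjoint_right.mpr hCD) (hCcard.trans_le hVD) hbig
  refine ⟨D', Finset.subset_compl_iff_disjoint_right.mp hD'D, fun z hz => ?_, hD'card⟩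
  obtain ⟨u, hu, hadj⟩ := hC z (fun h => hz (hCD' h))
  exact ⟨u, hCD' hu, hadj⟩

/-- **The excess `γ_a(G ∘ P) - |V_G|` is unbounded**: for every `k` there are a finite graph `G`
and a family `P` of partitions of its neighbourhoods with `γ_a(G ∘ P) > |V_G| + k`. -/
theorem result : ∀ k : ℕ, ∃ (V : Type) (_ : Fintype V) (G : SimpleGraph V)
    (P : V → Finset (Finset V)), IsNbrPartition G P ∧
      Fintype.card V + k < gammaA (corona G P) := by
  intro k
  have : NeZero (k + 2) := ⟨by omega⟩
  refine ⟨Fin (k + 2) → Fin (k + 2), inferInstance, hamming (k + 2), parts,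
    isNbrPartition (by omega), ?_⟩
  have hne : ∃ n, n ∈ {m | ∃ D, IsAccurate (corona (hamming (k + 2)) parts) D ∧ D.card = m} := by
    refine ⟨_, Finset.univ, ⟨fun v hv => absurd (Finset.mem_univ v) hv, ?_⟩, rfl⟩
    rintro ⟨D', hdis, _, hcard⟩
    have hD' : D' = ∅ := Finset.eq_empty_of_forall_notMem fun x hx =>
      Finset.disjoint_left.mp hdis hx (Finset.mem_univ x)
    rw [hD', Finset.card_empty] at hcard
    have : Nonempty (Fin (k + 2) → Fin (k + 2)) := inferInstance
    obtain ⟨x⟩ := this
    have := Finset.card_pos.mpr ⟨Sum.inl x, Finset.mem_univ (Sum.inl x : (Fin (k + 2) → Fin (k + 2)) ⊕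
      Σ v : Fin (k + 2) → Fin (k + 2), {A : Finset (Fin (k + 2) → Fin (k + 2)) // A ∈ parts v})⟩
    omega
  rw [gammaA, Nat.lt_iff_add_one_le]
  refine le_csInf hne ?_
  rintro m ⟨D, ⟨hD, hacc⟩, rfl⟩
  by_contra hcon
  exact hacc (not_accurate (k := k) le_rfl D hD (by omega))

end Pool.Agent.Results.MP_a24849_co.UnboundedExcess
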